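import Mathlib
import Pool.Agent.X269.Cactus

set_option autoImplicit false

/-!
MP_fc7805_al, Q1: the algebraic dimension of the cactus group `J_n` is not `⌊n/3⌋` in general.

`Pool.Agent.X269.Cactus.J n` is the cactus group, as a presented group on the generators
`s_{p,q}`, `1 ≤ p < q ≤ n`.  We show that `J_n` has a subgroup isomorphic to `ℤ^k` whenever
`2 k + 1 ≤ n`; for `n = 5` this gives `ℤ²`, whereas `⌊5/3⌋ = 1`.
-/

namespace Pool.Agent.Results.MP_fc7805_al.CactusRank

open Pool.Agent.X269.Cactus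

/-- `J_n` has a subgroup isomorphic to `ℤ^k` -/
def HasFreeAbelian (n k : ℕ) : Prop :=
  ∃ H : Subgroup (J n), Nonempty (H ≃* Multiplicative (Fin k → ℤ))

theorem hasFreeAbelian (n k : ℕ) (h : 2 * k + 1 ≤ n) : HasFreeAbelian n k := by
  obtain ⟨F, hF⟩ := exists_hom n k h
  let e : (Fin k → Multiplicative ℤ) ≃* Multiplicative (Fin k → ℤ) :=
    { toFun := fun f => Multiplicative.ofAdd (fun i => Multiplicative.toAdd (f i))
      invFun := fun f i => Multiplicative.ofAdd (Multiplicative.toAdd f i)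
      left_inv := fun _ => rfl
      right_inv := fun _ => rfl
      map_mul' := fun _ _ => rfl }
  exact ⟨F.range, ⟨(MonoidHom.ofInjective hF).symm.trans e⟩⟩

/-- `J_n` contains `ℤ^k` whenever `2k + 1 ≤ n`; hence it is not true that for every `n ≥ 2` and
`k ≥ 0` the group `J_n` has a subgroup isomorphic to `ℤ^k` if and only if `k ≤ ⌊n/3⌋`. -/
theorem result :
    (∀ n k : ℕ, 2 * k + 1 ≤ n → HasFreeAbelian n k) ∧
    ¬ (∀ n k : ℕ, 2 ≤ n → (HasFreeAbelian n k ↔ k ≤ n / 3)) := by
  refine ⟨hasFreeAbelian, fun h => ?_⟩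
  have := (h 5 2 (by norm_num)).1 (hasFreeAbelian 5 2 (by norm_num))
  norm_num at this

end Pool.Agent.Results.MP_fc7805_al.CactusRank
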